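import Pool.Agent.H34.RM.Defs

/-!
Two books (MP_28724c_co): the limit `d → 0` of the costs of the three set step.
-/

open Filter Topology

namespace Pool.Agent.H66.RM

open Pool.Agent.H34.RM

/-- entropy of the tilt `(1-t) + t 1_A / p` of a set of measure `p` -/
noncomputable def kap (t p : ℝ) : ℝ :=
  (1 - p) * ((1 - t) * Real.log (1 - t)) + p * ((1 - t + t / p) * Real.log (1 - t + t / p))

theorem phi_zero {t p : ℝ} (hp : p ≠ 0) : phi 0 t p = 1 := by
  unfold phi
  simp only [add_zero, Real.rpow_one]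
  field_simp
  ring

theorem hasDerivAt_phi {t p : ℝ} (ht0 : 0 ≤ t) (ht1 : t < 1) (hp : 0 < p) :
    HasDerivAt (fun d => phi d t p) (kap t p) 0 := by
  have h1 : 0 < 1 - t := by linarith
  have h2 : 0 < 1 - t + t / p := by positivity
  have e1 : HasDerivAt (fun d : ℝ => 1 + d) 1 0 := by
    simpa using (hasDerivAt_id (0 : ℝ)).const_add 1
  have a1 : HasDerivAt (fun d : ℝ => (1 - t) ^ (1 + d)) ((1 - t) * Real.log (1 - t)) 0 := by
    have := e1.const_rpow h1
    simpa [mul_comm] using this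
  have a2 : HasDerivAt (fun d : ℝ => (1 - t + t / p) ^ (1 + d))
      ((1 - t + t / p) * Real.log (1 - t + t / p)) 0 := by
    have := e1.const_rpow h2
    simpa [mul_comm] using this
  exact (a1.const_mul (1 - p)).add (a2.const_mul p)

theorem phi_pos {t p : ℝ} (ht0 : 0 ≤ t) (ht1 : t < 1) (hp : 0 < p) (hp1 : p < 1) (d : ℝ) :
    0 < phi d t p := by
  have h1 : 0 < 1 - t := by linarith
  have h2 : 0 < 1 - t + t / p := by positivity
  have h3 : 0 < 1 - p := by linarith
  unfold phi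
  have := Real.rpow_pos_of_pos h1 (1 + d)
  have := Real.rpow_pos_of_pos h2 (1 + d)
  positivity

/-- the limit of the factor of a tilt -/
theorem tendsto_phi {t p : ℝ} (ht0 : 0 ≤ t) (ht1 : t < 1) (hp : 0 < p) (hp1 : p < 1)
    (a c : ℝ) : Tendsto (fun d : ℝ => phi d t p ^ (c / (a * d))) (𝓝[>] 0)
      (𝓝 (Real.exp (c * kap t p / a))) := by
  have hd := (hasDerivAt_phi ht0 ht1 hp).log (by rw [phi_zero hp.ne']; norm_num)
  rw [phi_zero hp.ne', div_one] at hd
  have h1 := hd.tendsto_slope_zero_right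
  have h2 : Tendsto (fun d : ℝ => c / a * (d⁻¹ * Real.log (phi d t p))) (𝓝[>] 0)
      (𝓝 (c / a * kap t p)) := by
    refine Tendsto.const_mul _ (h1.congr fun d => ?_)
    rw [phi_zero hp.ne', Real.log_one, zero_add, sub_zero, smul_eq_mul]
  have h3 := (Real.continuous_exp.tendsto _).comp h2
  rw [show c / a * kap t p = c * kap t p / a by ring] at h3
  refine h3.congr fun d => ?_
  rw [Function.comp_apply, Real.rpow_def_of_pos (phi_pos ht0 ht1 hp hp1 d)]
  congr 1
  rw [div_mul_eq_div_div, div_eq_mul_inv (c / a) d]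
  ring

/-- the cost in the limit -/
theorem cost_eq {a b q L K : ℝ} (hq : 0 < q) :
    Real.exp (-L / a) * q ^ (-b / a) * Real.exp (K / a)
      = Real.exp (-(L + b * Real.log q - K) / a) := by
  rw [Real.rpow_def_of_pos hq, ← Real.exp_add, ← Real.exp_add]
  congr 1
  ring

/-- It is enough to check the costs in the limit `d → 0`. -/
theorem ex_d {a b c q p L M s t la la' R w0 : ℝ} (hs0 : 0 ≤ s) (hs1 : s < 1) (ht0 : 0 ≤ t)
    (ht1 : t < 1) (hq : 0 < q) (hq1 : q < 1) (hp : 0 < p) (hp1 : p < 1)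
    (h : la * Real.exp (-(L + b * Real.log q - c * kap t p) / a) +
      la' * Real.exp (-(M + c * Real.log p - b * kap s q) / a) + R < w0) :
    ∃ d : ℝ, 0 < d ∧ d ≤ 1 ∧
      la * (Real.exp (-L / a) * q ^ (-b / a) * phi d t p ^ (c / (a * d))) +
      la' * (Real.exp (-M / a) * p ^ (-c / a) * phi d s q ^ (b / (a * d))) + R < w0 := by
  have h1 : Tendsto (fun d : ℝ =>
      la * (Real.exp (-L / a) * q ^ (-b / a) * phi d t p ^ (c / (a * d))) +
      la' * (Real.exp (-M / a) * p ^ (-c / a) * phi d s q ^ (b / (a * d))) + R) (𝓝[>] 0)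
      (𝓝 (la * (Real.exp (-L / a) * q ^ (-b / a) * Real.exp (c * kap t p / a)) +
      la' * (Real.exp (-M / a) * p ^ (-c / a) * Real.exp (b * kap s q / a)) + R)) := by
    refine Tendsto.add_const _ (Tendsto.add ?_ ?_)
    · exact ((tendsto_phi ht0 ht1 hp hp1 a c).const_mul _).const_mul _
    · exact ((tendsto_phi hs0 hs1 hq hq1 a b).const_mul _).const_mul _
  rw [cost_eq hq, cost_eq hp] at h1
  have h2 := h1.eventually (gt_mem_nhds h)
  have h3 : ∀ᶠ d : ℝ in 𝓝[>] 0, 0 < d ∧ d < 1 := by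
    have : Set.Ioo (0 : ℝ) 1 ∈ 𝓝[>] (0 : ℝ) := Ioo_mem_nhdsGT one_pos
    exact this
  obtain ⟨d, hd, hd0, hd1⟩ := (h2.and h3).exists
  exact ⟨d, hd0, hd1.le, hd⟩

end Pool.Agent.H66.RM
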