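import Pool.Agent.H98.RM.Diag
import Pool.Agent.H92.RamseyF
import Pool.Agent.H18.RM.SK
import Pool.Agent.H56.Ramsey.Final

/-!
Two books (MP_28724c_co), root layer only: the diagonal step with three set cells relative to a
family of lines that is already known to be good.
-/

open Finset

namespace Pool.Agent.H66.RM.Root

open Pool.Agent.H92 Pool.Agent.H34.RM Pool.Agent.H98.RM Pool.Agent.H56.Ramsey
open Pool.Agent.H18.RM.K (SCk chkBase chkK)

/-- a cell of the diagonal step: the scalar data (scale `10^6`), the line for `Y` and the line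
for `Z` (index in the family, mirrored or not) -/
structure RC where
  /-- the scalar data -/
  r : SCk
  /-- index of the line for `Y` -/
  j : ℕ
  /-- is this line mirrored -/
  jb : Bool
  /-- index of the line for `Z` -/
  m : ℕ
  /-- is this line mirrored -/
  mb : Bool

/-- the base test of the scalar checker, for the shape `s = t = 2/5` -/
def chkr (r : SCk) : Bool :=
  chkK 400000 (-510825) 400000 (-510825) 1110000 1110000 10 1000000 r

/-- check of a cell against the family `D` and the exponent `c0 / 10^6` -/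
def cellChk (D : List LD) (c0 : ℤ) (z : RC) : Bool :=
  chkr z.r &&
  decide (z.j < D.length) && decide (z.m < D.length) &&
  decide (0 < z.r.a) && decide (0 < z.r.b) && decide (0 < z.r.c) &&
  decide (0 ≤ z.r.L) && decide (0 ≤ z.r.M) &&
  decide (z.r.b * gu D z.j z.jb ≤ z.r.L * SC) &&
  decide (z.r.c * gv D z.m z.mb ≤ z.r.M * SC) &&
  decide ((z.r.L + z.r.M) * SC + z.r.b * gv D z.j z.jb + z.r.c * gu D z.m z.mb
    ≤ (z.r.a + z.r.b + z.r.c) * (c0 * 1000000000000))

/-- the cells form a chain from `lo / 10^6` to `hi / 10^6` -/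
def chainChk : List RC → ℤ → ℤ → Bool
  | [], lo, hi => decide (hi < lo)
  | z :: t, lo, hi => decide (z.r.q < lo) && chainChk t (1000000 - z.r.p) hi

/-- the check of the two set step at `q / 10^6`; `a`, `M` have scale `10^18` -/
def twoChk (D : List LD) (a M q : ℤ) (z : ℕ) (zb : Bool) (c : CD) (c0 : ℤ) : Bool :=
  decide (z < D.length) && decide (0 < a) && decide (a ≤ SC) && decide (0 < q) &&
  decide (q < 1000000) && decide (0 ≤ M) && decide (0 ≤ gu D z zb) &&
  decide ((gu D z zb + M + gv D z zb) * SC ≤ (SC + a) * (c0 * 1000000000000)) &&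
  certChk a (q * 1000000000000) (gu D z zb) M c.t c.x1 c.x2 c.x3 c.s1 c.s2

/-- scale `10^6` -/
noncomputable def R6 (p : ℤ) : ℝ := (p : ℝ) / 1000000

theorem R6_eq (p : ℤ) : R6 p = R (p * 1000000000000) := by
  unfold R6 R SC
  push_cast
  rw [div_eq_div_iff (by norm_num) (by norm_num)]
  ring

theorem R_eq (p : ℤ) : R p = (p : ℝ) / 1000000000000000000 := by
  unfold R SC
  push_cast
  rfl

theorem cell_sound {D : List LD} {c0 : ℤ} {z : RC} (h : cellChk D c0 z = true)
    (hG : ∀ i : Fin D.length × Bool, Good (ru D i) (rv D i))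
    (hC : Conc3 (R6 z.r.a) (R6 z.r.b) (R6 z.r.c) (R6 z.r.q) (R6 z.r.p) (R6 z.r.L) (R6 z.r.M)) :
    DCell3 (R6 c0) (R6 z.r.q) (R6 z.r.p) := by
  unfold cellChk at h
  simp only [Bool.and_eq_true, decide_eq_true_eq] at h
  obtain ⟨⟨⟨⟨⟨⟨⟨⟨⟨⟨-, hj⟩, hm⟩, ha⟩, hb⟩, hc⟩, hL⟩, hM⟩, h1⟩, h2⟩, h3⟩ := h
  have hS : (SC : ℝ) = 1000000000000000000 := by unfold SC; norm_num
  have ha' : (0 : ℝ) < z.r.a := by exact_mod_cast ha
  have hb' : (0 : ℝ) < z.r.b := by exact_mod_cast hb
  have hc' : (0 : ℝ) < z.r.c := by exact_mod_cast hc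
  have hL' : (0 : ℝ) ≤ z.r.L := by exact_mod_cast hL
  have hM' : (0 : ℝ) ≤ z.r.M := by exact_mod_cast hM
  have a0 : 0 < R6 z.r.a := by unfold R6; positivity
  have b0 : 0 < R6 z.r.b := by unfold R6; positivity
  have c00 : 0 < R6 z.r.c := by unfold R6; positivity
  have L0 : 0 ≤ R6 z.r.L := by unfold R6; positivity
  have M0 : 0 ≤ R6 z.r.M := by unfold R6; positivity
  have g1 : Good (R (gu D z.j z.jb)) (R (gv D z.j z.jb)) := hG (⟨z.j, hj⟩, z.jb)
  have g2 : Good (R (gu D z.m z.mb)) (R (gv D z.m z.mb)) := hG (⟨z.m, hm⟩, z.mb)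
  have h1' : (z.r.b : ℝ) * (gu D z.j z.jb : ℤ) ≤ z.r.L * SC := by exact_mod_cast h1
  have h2' : (z.r.c : ℝ) * (gv D z.m z.mb : ℤ) ≤ z.r.M * SC := by exact_mod_cast h2
  have h3' : ((z.r.L : ℝ) + z.r.M) * SC + z.r.b * (gv D z.j z.jb : ℤ)
      + z.r.c * (gu D z.m z.mb : ℤ)
      ≤ ((z.r.a : ℝ) + z.r.b + z.r.c) * (c0 * 1000000000000) := by exact_mod_cast h3
  rw [hS] at h1' h2' h3'
  refine ⟨R6 z.r.a, R6 z.r.b, R6 z.r.c, R6 z.r.L, R6 z.r.M, R (gu D z.m z.mb),
    R (gv D z.j z.jb), a0, b0, c00, L0, M0, hC, ?_, ?_, ?_⟩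
  · refine Num.good_mono g1 ?_ le_rfl
    rw [le_div_iff₀ b0, R_eq]
    unfold R6
    rw [div_mul_div_comm, div_le_div_iff₀ (by norm_num) (by norm_num)]
    linarith
  · refine Num.good_mono g2 le_rfl ?_
    rw [le_div_iff₀ c00, R_eq]
    unfold R6
    rw [div_mul_div_comm, div_le_div_iff₀ (by norm_num) (by norm_num)]
    linarith
  · rw [R_eq, R_eq]
    unfold R6
    have e1 : (z.r.L : ℝ) / 1000000 + (z.r.M : ℝ) / 1000000
        + (z.r.b : ℝ) / 1000000 * ((gv D z.j z.jb : ℤ) / 1000000000000000000)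
        + (z.r.c : ℝ) / 1000000 * ((gu D z.m z.mb : ℤ) / 1000000000000000000)
        = (((z.r.L : ℝ) + z.r.M) * 1000000000000000000 + z.r.b * (gv D z.j z.jb : ℤ)
      + z.r.c * (gu D z.m z.mb : ℤ)) / 1000000000000000000000000 := by ring
    have e2 : ((z.r.a : ℝ) / 1000000 + (z.r.b : ℝ) / 1000000 + (z.r.c : ℝ) / 1000000)
        * ((c0 : ℝ) / 1000000)
        = (((z.r.a : ℝ) + z.r.b + z.r.c) * (c0 * 1000000000000))
          / 1000000000000000000000000 := by ring
    rw [e1, e2]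
    exact div_le_div_of_nonneg_right h3' (by norm_num)

theorem chain_sound : ∀ (cs : List RC) (lo hi : ℤ), chainChk cs lo hi = true →
    Chain (cs.map fun z => (R6 z.r.q, R6 z.r.p)) (R6 lo) (R6 hi)
  | [], lo, hi, h => by
    unfold chainChk at h
    rw [decide_eq_true_eq] at h
    have h' : (hi : ℝ) < lo := by exact_mod_cast h
    show R6 hi < R6 lo
    unfold R6
    linarith
  | z :: t, lo, hi, h => by
    unfold chainChk at h
    rw [Bool.and_eq_true, decide_eq_true_eq] at h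
    have h' : (z.r.q : ℝ) < lo := by exact_mod_cast h.1
    have h2 := chain_sound t _ _ h.2
    have e : R6 (1000000 - z.r.p) = 1 - R6 z.r.p := by
      unfold R6
      push_cast
      ring
    rw [e] at h2
    refine ⟨?_, h2⟩
    show R6 z.r.q < R6 lo
    unfold R6
    linarith

theorem two_sound {D : List LD} {a M q : ℤ} {z : ℕ} {zb : Bool} {c : CD} {c0 : ℤ}
    (h : twoChk D a M q z zb c c0 = true)
    (hG : ∀ i : Fin D.length × Bool, Good (ru D i) (rv D i)) :
    DCell2 CertI (R6 c0) (R6 q) := by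
  unfold twoChk at h
  simp only [Bool.and_eq_true, decide_eq_true_eq] at h
  obtain ⟨⟨⟨⟨⟨⟨⟨⟨hz, ha⟩, ha1⟩, hq⟩, hq2⟩, hM⟩, hL⟩, h1⟩, hc⟩ := h
  have hg : Good (R (gu D z zb)) (R (gv D z zb)) := hG (⟨z, hz⟩, zb)
  have hS := SC_posR
  have hq' : (0 : ℝ) < q := by exact_mod_cast hq
  have hq2' : (q : ℝ) < 1000000 := by exact_mod_cast hq2
  have hcert := certChk_sound hc
  rw [← R6_eq] at hcert
  refine ⟨R a, R (gu D z zb), R M, R (gv D z zb), R_pos ha, R_le_one ha1, ?_, ?_,
    R_nonneg hL, R_nonneg hM, hcert, hg, ?_⟩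
  · unfold R6; positivity
  · unfold R6
    rw [div_lt_one (by norm_num)]
    exact hq2'
  · have h1' : (((gu D z zb : ℤ) : ℝ) + M + (gv D z zb : ℤ)) * SC
        ≤ (SC + a) * ((c0 * 1000000000000 : ℤ) : ℝ) := by
      exact_mod_cast h1
    rw [R6_eq]
    rw [R_mul_SC (gu D z zb), R_mul_SC (gv D z zb), R_mul_SC M, R_mul_SC a,
      R_mul_SC (c0 * 1000000000000)] at h1'
    have h3 : (R (gu D z zb) + R M + R (gv D z zb)) * (SC * SC)
        ≤ ((1 + R a) * R (c0 * 1000000000000)) * (SC * SC) := by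
      refine le_trans (le_of_eq ?_) (h1'.trans (le_of_eq ?_)) <;> ring
    exact le_of_mul_le_mul_right h3 (by positivity)

/-- The scalar checker gives the three set theorem. -/
def SConc : Prop := ∀ r : SCk, chkr r = true →
  Conc3 (R6 r.a) (R6 r.b) (R6 r.c) (R6 r.q) (R6 r.p) (R6 r.L) (R6 r.M)

/-- The diagonal bound from the three set theorem at the root only. -/
theorem goodDiag_root (hT : T1P CertI) (hC : SConc) {D : List LD}
    (hD : D.all (lineChk D) = true) {c0 a M q : ℤ} {z : ℕ} {zb : Bool} {c : CD} {cs : List RC}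
    (h1 : cs.all (cellChk D c0) = true) (h2 : chainChk cs 500000 q = true)
    (h3 : twoChk D a M q z zb c c0 = true) : GoodDiag (R6 c0) := by
  have hG : ∀ i : Fin D.length × Bool, Good (ru D i) (rv D i) :=
    good_of_check (bootstrapP_of_T1P hT) hD
  refine diagStep3 hT (R6 c0) (R6 q) (cs.map fun z => (R6 z.r.q, R6 z.r.p))
    (two_sound h3 hG) ?_ ?_
  · intro w hw
    rw [List.mem_map] at hw
    obtain ⟨x, hx, rfl⟩ := hw
    rw [List.all_eq_true] at h1
    have h4 := h1 x hx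
    refine cell_sound h4 hG (hC x.r ?_)
    unfold cellChk at h4
    simp only [Bool.and_eq_true] at h4
    exact h4.1.1.1.1.1.1.1.1.1.1
  · have h5 := covers_of_chain _ _ _ (chain_sound cs 500000 q h2)
    have e : R6 500000 = 1 / 2 := by unfold R6; norm_num
    rwa [e] at h5

end Pool.Agent.H66.RM.Root
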