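import Pool.Agent.H66.RM.RootData
import Pool.Agent.H48.RMJ.Base
import Pool.Agent.H34.RM.Main

/-!
Two books (MP_28724c_co): the scalar checker gives the three set theorem, and the bounds
`R(k,k) ≤ 3.2 ^ k` and `R(k,k) ≤ 3.18 ^ k` for large `k`.
-/

namespace Pool.Agent.H66.RM.Root

open Pool.Agent.H92 Pool.Agent.H34.RM Pool.Agent.H98.RM Pool.Agent.H66.RM
open Pool.Agent.H48.RMJ (cf0 cf0_nonneg cf0_zero cert_red cert_blue growth)

theorem base_ok : Pool.Agent.H18.RM.K.chkBase 400000 (-510825) 400000 (-510825) 1110000 1110000 10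
    = true := by decide +kernel

/-- The certificate predicate from the scalar checker. -/
theorem cert_of_chkr (r : Pool.Agent.H18.RM.K.SCk) (h : chkr r = true) :
    Cert3P (R6 r.a) (R6 r.b) (R6 r.c) (R6 r.q) (R6 r.p) (R6 r.L) (R6 r.M) := by
  obtain ⟨ha, hb, hc, hq, hq1, hp, hp1, hL, hM, hcost⟩ :=
    Pool.Agent.H18.RM.K.scal_of_chk (la := 111 / 100) (la' := 111 / 100) (l1 := 1 / 100000)
      base_ok (by norm_num) (by norm_num) (by norm_num) r h
  have e1 : ((400000 : ℤ) : ℝ) / 1000000 = 2 / 5 := by norm_num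
  have e2 : ((1000000 : ℤ) : ℝ) / 1000000 = cf0 0 0 := by rw [cf0_zero]; norm_num
  rw [e1, e2] at hcost
  obtain ⟨d, hd, hd1, hd2⟩ := ex_d (by norm_num) (by norm_num) (by norm_num) (by norm_num)
    hq hq1 hp hp1 hcost
  refine ⟨ha, hb, hc, hq, hq1, hp, hp1, hL, hM, d, hd, hd1, 6, cf0, 2 / 5, 2 / 5, 111 / 100,
    111 / 100, 1 / 100000, 40, 5, by norm_num, cf0_nonneg, by norm_num, by norm_num,
    by norm_num, by norm_num, by norm_num, by norm_num, by norm_num, by norm_num,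
    cert_red (by norm_num), cert_blue (by norm_num), growth, hd2⟩

theorem sConc : SConc := fun r h => t3 _ _ _ _ _ _ _ (cert_of_chkr r h)

/-- `R(k,k) ≤ 3.2 ^ k` for large `k`. -/
theorem ramsey_le_320 :
    ∀ᶠ k : ℕ in Filter.atTop, (ramseyNumber k : ℝ) ≤ (3.2 : ℝ) ^ k := eventually320 sConc

/-- `R(k,k) ≤ 3.18 ^ k` for large `k`. -/
theorem ramsey_le_318 :
    ∀ᶠ k : ℕ in Filter.atTop, (ramseyNumber k : ℝ) ≤ (3.18 : ℝ) ^ k := eventually318 sConc

end Pool.Agent.H66.RM.Root
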